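import Pool.Agent.Helper590.NS.F
import Pool.Agent.TH649.LOC.All

/-!
# The `L^p`-Mahler inequality and its first exponent of failure

Fix `n ≥ 1`.  Let `I` be the set of the exponents `p ∈ (0, ∞)` for which the inequality of the
question holds for all convex bodies of `ℝ^n`, and let `U ⊆ I` be the set of the exponents for which,
moreover, only the simplices with centroid at the origin attain equality.  We prove that `I` is
closed and `U` is open in `(0, ∞)`, and that `U` contains a half line.  Hence either `U = (0, ∞)`,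
that is, the conjecture holds in dimension `n` with uniqueness of the minimisers, or there is a
largest exponent `p* ∉ U`; it belongs to `I`, and there is a convex body `K*` of `ℝ^n` which is not a
simplex and has the same `M_{p*}` as the centred simplex, the minimum of `M_{p*}` over all convex
bodies in all positions.

Outline.  `M_p(K)` decreases in `p` and is continuous in `p` (where it is finite).  If `U` were not
open at `p` there would be bodies `K_j`, not simplices, with `M_{q_j}(K_j) ≤ M_{q_j}(Δ)`, `q_j → p`; the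
volume products of the `K_j` are bounded, and modulo linear maps the bodies subconverge to a body `H`
with `M_p(H) ≤ M_p(Δ)`, a simplex.  This contradicts the local minimality of the simplex for the
exponents `q_j`, which is shown to hold uniformly for the exponents near `p`: the weight of the first
variation is lower semicontinuous in the exponent, uniformly on the simplex.
-/

set_option autoImplicit false

open MeasureTheory Set Filter
open scoped ENNReal Topology Matrix Pointwise

namespace Pool.Agent.Results.MP_5f4cdd_gt.ContinuityMethod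

/-- convex bodies in `ℝⁿ` (in any position) -/
def Body {n : ℕ} (K : Set (Fin n → ℝ)) : Prop := Convex ℝ K ∧ IsCompact K ∧ (interior K).Nonempty

/-- The `L^p`-Mahler volume `M_p(K) = vol(K) ∫ exp(-h_{p,K}(y)) dy` for `0 < p < ∞`, where
`exp(-h_{p,K}(y)) = ((1/vol K) ∫_K exp(p⟨x,y⟩) dx)^(-1/p)`. -/
noncomputable def mahlerVolume {n : ℕ} (p : ℝ) (K : Set (Fin n → ℝ)) : ℝ≥0∞ :=
  volume K * ∫⁻ y : Fin n → ℝ, ENNReal.ofReal
    (((∫ x in K, Real.exp (p * ∑ i, x i * y i)) / (volume K).toReal) ^ (-(1 / p)))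

/-- the standard simplex `Δ_n` -/
def simplex (n : ℕ) : Set (Fin n → ℝ) := {z | (∀ i, 0 ≤ z i) ∧ ∑ i, z i ≤ 1}

/-- the infimum of `M_p(Δ_n - x)` over `x ∈ Δ_n` -/
noncomputable def simplexInf (n : ℕ) (p : ℝ) : ℝ≥0∞ :=
  ⨅ x ∈ simplex n, mahlerVolume p ((fun z : Fin n → ℝ => z - x) '' simplex n)

/-- `K` is a simplex with centroid at the origin: the convex hull of `n + 1` affinely independent
points whose sum is `0` -/
def CentredSimplex {n : ℕ} (K : Set (Fin n → ℝ)) : Prop :=
  ∃ v : Fin (n + 1) → (Fin n → ℝ), AffineIndependent ℝ v ∧ ∑ i, v i = 0 ∧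
    K = convexHull ℝ (Set.range v)

/-- the inequality of the question for the exponent `p` and all convex bodies of `ℝ^n` -/
def Minimizes (n : ℕ) (p : ℝ) : Prop :=
  ∀ K : Set (Fin n → ℝ), Body K → simplexInf n p ≤ mahlerVolume p K

/-- the inequality, with equality only for the centred simplices -/
def UniquelyMinimizes (n : ℕ) (p : ℝ) : Prop :=
  ∀ K : Set (Fin n → ℝ), Body K → simplexInf n p ≤ mahlerVolume p K ∧
    (mahlerVolume p K = simplexInf n p → CentredSimplex K)

open Pool.Agent.H131R5.LM (Mp Sn)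
open Pool.Agent.Helper590.NS

/-- the value of the infimum is the value at the centroid -/
lemma infp_eq {n : ℕ} {p : ℝ} (hp : 0 < p) : simplexInf n p = Mp p (Sn n) := by
  apply le_antisymm
  · have h2 := iInf₂_le (f := fun (x : Fin n → ℝ) (_ : x ∈ simplex n) =>
      mahlerVolume p ((fun z : Fin n → ℝ => z - x) '' simplex n))
      _ (Pool.Agent.H131R5.LM.center_mem (n := n))
    rw [← Pool.Agent.H131R5.LM.image_Dn]
    exact h2
  · refine le_iInf₂ fun x _ => ?_
    have h := Pool.Agent.TH649.LOC.Mp_shift_le (n := n) hp (x - fun _ => 1 / ((n:ℝ) + 1))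
    have e : (fun y : Fin n → ℝ => y - (x - fun _ => 1 / ((n:ℝ) + 1))) ''
        Pool.Agent.H131R5.LM.Sn n = (fun z : Fin n → ℝ => z - x) '' simplex n := by
      rw [← Pool.Agent.H131R5.LM.image_Dn, Set.image_image]
      refine Set.image_congr fun z _ => ?_
      abel
    rw [e] at h
    exact h

lemma min_iff {n : ℕ} {p : ℝ} (hp : 0 < p) : Minimizes n p ↔ MI n p := by
  unfold Minimizes MI
  constructor
  · intro h K h1 h2 h3
    have := h K ⟨h2, h1, h3⟩
    rw [infp_eq hp] at this
    exact this
  · intro h K hK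
    rw [infp_eq hp]
    exact h K hK.2.1 hK.1 hK.2.2

lemma uni_iff {n : ℕ} {p : ℝ} (hp : 0 < p) : UniquelyMinimizes n p ↔ MU n p := by
  classical
  unfold UniquelyMinimizes MU
  constructor
  · intro h K h1 h2 h3
    have h4 := h K ⟨h2, h1, h3⟩
    rw [infp_eq hp] at h4
    refine ⟨h4.1, fun hno => lt_of_le_of_ne h4.1 fun he => ?_⟩
    obtain ⟨v, _, _, hv⟩ := h4.2 he.symm
    refine hno (Finset.univ.image v) ?_ ?_
    · refine Finset.card_image_le.trans ?_
      rw [Finset.card_univ, Fintype.card_fin]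
    · rw [hv, Finset.coe_image, Finset.coe_univ, image_univ]
  · intro h K hK
    have h1 := h K hK.2.1 hK.1 hK.2.2
    rw [infp_eq hp]
    refine ⟨h1.1, fun he => ?_⟩
    apply (Pool.Agent.TH649.LOC.centred_iff K).1
    by_contra hcon
    have h2 := h1.2 fun Q hQ hKQ =>
      hcon ((Pool.Agent.TH649.LOC.hull_le hp hK.2.2 hQ hKQ).2 he)
    exact absurd he h2.ne'

lemma mu_one {p : ℝ} (hp : 0 < p) : MU 1 p := by
  intro K hK hc hi
  obtain ⟨Q, hQ, hKQ⟩ := Pool.Agent.TH649.LOC.dim_one hK hc hi
  exact ⟨(Pool.Agent.TH649.LOC.hull_le hp hi hQ hKQ).1, fun h => absurd hKQ (h Q hQ)⟩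

/-- **The exponents of the `L^p`-Mahler inequality.** -/
theorem result (n : ℕ) (hn : 1 ≤ n) :
    -- the exponents for which the simplex is a minimiser form a closed subset of `(0, ∞)`
    (∀ p : ℝ, 0 < p → p ∈ closure {q : ℝ | 0 < q ∧ Minimizes n q} → Minimizes n p) ∧
    -- those for which the centred simplices are the only minimisers form an open subset
    (∀ p : ℝ, 0 < p → UniquelyMinimizes n p → ∀ᶠ q in 𝓝 p, UniquelyMinimizes n q) ∧
    -- it contains a half line
    (∃ p₀ : ℝ, 0 < p₀ ∧ ∀ p : ℝ, p₀ ≤ p → UniquelyMinimizes n p) ∧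
    -- the alternative
    ((∀ p : ℝ, 0 < p → UniquelyMinimizes n p) ∨
      ∃ p : ℝ, 0 < p ∧ (∀ q : ℝ, p < q → UniquelyMinimizes n q) ∧ Minimizes n p ∧
        ∃ K : Set (Fin n → ℝ), Body K ∧ mahlerVolume p K = simplexInf n p ∧
          ∀ Q : Finset (Fin n → ℝ), Q.card ≤ n + 1 →
            K ≠ convexHull ℝ (Q : Set (Fin n → ℝ))) := by
  obtain ⟨p0, hp0, hlarge⟩ := Pool.Agent.TH649.LOC.all_final n hn
  have hlarge' : ∀ p : ℝ, p0 ≤ p → MU n p := fun p hp => hlarge p hp
  refine ⟨fun p hp h => ?_, fun p hp h => ?_, ?_, ?_⟩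
  · rw [min_iff hp]
    apply clsd hp
    rw [mem_closure_iff_frequently] at h
    exact h.mono fun q hq => (min_iff hq.1).1 hq.2
  · rw [uni_iff hp] at h
    rcases Nat.lt_or_ge 1 n with hn2 | hn2
    · obtain ⟨m, rfl⟩ : ∃ m, n = m + 2 := ⟨n - 2, by omega⟩
      filter_upwards [opn m hp h, lt_mem_nhds hp] with q h2 h3
      exact (uni_iff h3).2 h2
    · obtain rfl : n = 1 := by omega
      filter_upwards [lt_mem_nhds hp] with q h3
      exact (uni_iff h3).2 (mu_one h3)
  · exact ⟨p0, hp0, fun p hp => (uni_iff (hp0.trans_le hp)).2 (hlarge' p hp)⟩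
  · rcases Nat.lt_or_ge 1 n with hn2 | hn2
    · obtain ⟨m, rfl⟩ : ∃ m, n = m + 2 := ⟨n - 2, by omega⟩
      rcases alternative m hlarge' with h | ⟨p, hp, h1, h2, h3⟩
      · exact Or.inl fun p hp => (uni_iff hp).2 (h p hp)
      · right
        refine ⟨p, hp, fun q hq => (uni_iff (hp.trans hq)).2 (h1 q hq), (min_iff hp).2 h2, ?_⟩
        unfold MU at h3
        push Not at h3
        obtain ⟨K, hKc, hKv, hKi, h5⟩ := h3
        have h4 := h2 K hKc hKv hKi
        obtain ⟨h6, h7⟩ := h5 h4
        refine ⟨K, ⟨hKv, hKc, hKi⟩, ?_, h6⟩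
        rw [infp_eq hp]
        exact le_antisymm h7 h4
    · obtain rfl : n = 1 := by omega
      exact Or.inl fun p hp => (uni_iff hp).2 (mu_one hp)

end Pool.Agent.Results.MP_5f4cdd_gt.ContinuityMethod
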