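import Pool.Agent.Helper37LP.Et
import Pool.Agent.Helper37LP.F
import Pool.Agent.H131R5.LC11

/-!
# Bodies in ellipsoids and the non-symmetric `L^p`-Mahler inequality, uniformly in `p`

For compact sets `K` of `ℝⁿ` in every position, contained in an ellipsoid `E` (with any centre) with
`vol E ≤ κ^n vol K`, the inequality of Q1 holds strictly for all `n ≥ n₀(κ)` and all `p > 0` at
once whenever `κ < √(2π/e) = 1.5203...`, and for a fixed `p` whenever `κ` is smaller than the
quotient of the rates of Euclidean balls and of simplices.  The containment may be replaced by a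
bound of an exponential moment.
-/

set_option autoImplicit false

noncomputable section

open MeasureTheory Set Filter
open scoped ENNReal Topology

namespace Pool.Agent.Results.MP_5f4cdd_gt.OuterVolumeRatio

/-- The `L^p`-Mahler volume `M_p(K) = vol(K) ∫ exp(-h_{p,K}(y)) dy` for `0 < p < ∞`, where
`exp(-h_{p,K}(y)) = ((1/vol K) ∫_K exp(p⟨x,y⟩) dx)^(-1/p)`. -/
def mahlerVolume {n : ℕ} (p : ℝ) (K : Set (Fin n → ℝ)) : ℝ≥0∞ :=
  volume K * ∫⁻ y : Fin n → ℝ, ENNReal.ofReal
    (((∫ x in K, Real.exp (p * ∑ i, x i * y i)) / (volume K).toReal) ^ (-(1 / p)))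

/-- the standard simplex `Δ_n` -/
def simplex (n : ℕ) : Set (Fin n → ℝ) := {z | (∀ i, 0 ≤ z i) ∧ ∑ i, z i ≤ 1}

/-- the infimum of `M_p(Δ_n - x)` over `x ∈ Δ_n` -/
def simplexInf (n : ℕ) (p : ℝ) : ℝ≥0∞ :=
  ⨅ x ∈ simplex n, mahlerVolume p ((fun z : Fin n → ℝ => z - x) '' simplex n)

/-- `|A(x - c)|²`, the square of the norm whose unit ball is the ellipsoid -/
def normSq {n : ℕ} (A : Matrix (Fin n) (Fin n) ℝ) (c x : Fin n → ℝ) : ℝ :=
  ∑ i, (A.mulVec (x - c)) i ^ 2

/-- the ellipsoid `{x : |A(x - c)|² ≤ 1}` -/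
def ellipsoid {n : ℕ} (A : Matrix (Fin n) (Fin n) ℝ) (c : Fin n → ℝ) : Set (Fin n → ℝ) :=
  {x | normSq A c x ≤ 1}

/-- the mean over `K` of `exp((pn/2)(|A(x - c)|² - 1))`; it is at most `1` if `K` lies in the
ellipsoid -/
def moment {n : ℕ} (p : ℝ) (A : Matrix (Fin n) (Fin n) ℝ) (c : Fin n → ℝ)
    (K : Set (Fin n → ℝ)) : ℝ :=
  (∫ x in K, Real.exp (p * n / 2 * (normSq A c x - 1))) / volume.real K

/-- the rate of the Euclidean balls, `b(p) = 2π (1+p)^((1+p)/(2p)) / √p` -/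
def ballRate (p : ℝ) : ℝ := 2 * Real.pi * (1 + p) ^ ((1 + p) / (2 * p)) / √p

/-- the rate of the simplices, `r(p) = e^(1+1/p) p^(1/p) Γ(1+1/p)` -/
def simplexRate (p : ℝ) : ℝ := Real.exp (1 + 1 / p) * p ^ (1 / p) * Real.Gamma (1 + 1 / p)

/-- the polynomial factor `(n/2)^(n/2) e^(-n/2) / Γ(1 + n/2)` -/
def loss (n : ℕ) : ℝ :=
  ((n:ℝ) / 2) ^ ((n:ℝ) / 2) * Real.exp (-((n:ℝ) / 2)) / Real.Gamma (1 + (n:ℝ) / 2)

lemma inf_eq (n : ℕ) (p : ℝ) : simplexInf n p = Pool.Agent.H131R5.LC.II n p := rfl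

lemma rate_eq (p : ℝ) : simplexRate p = Pool.Agent.TH649.LP.eps p := rfl

lemma ball_eq (p : ℝ) : ballRate p = Pool.Agent.R476.LI.brate p := rfl

lemma loss_eq (n : ℕ) : loss n = Pool.Agent.R476.LI.sg ((n:ℝ) / 2) := rfl

lemma vol_eq {n : ℕ} (p : ℝ) (K : Set (Fin n → ℝ)) :
    mahlerVolume p K = Pool.Agent.W678.LM.Mp p K := rfl

variable {n : ℕ} {K : Set (Fin n → ℝ)} {A : Matrix (Fin n) (Fin n) ℝ} {c : Fin n → ℝ} {p : ℝ}

lemma gen (hn : 1 ≤ n) (hp : 0 < p) (hc : IsCompact K) (hv : volume K ≠ 0) (hA : A.det ≠ 0) :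
    ENNReal.ofReal (loss n * (volume.real K / volume.real (ellipsoid A c)) *
      moment p A c K ^ (-(1 / p)) * ballRate p ^ n) ≤ mahlerVolume p K := by
  refine le_trans (le_of_eq ?_) (Pool.Agent.Helper37LP.mom_ell hn hp hc hv hA c)
  congr 1
  rw [loss_eq, ball_eq]
  unfold moment normSq
  have h1 : ellipsoid A c = Pool.Agent.Helper37LP.ell A c := rfl
  rw [h1]
  ring

lemma vpos (hc : IsCompact K) (hv : volume K ≠ 0) : 0 < volume.real K :=
  ENNReal.toReal_pos hv hc.measure_lt_top.ne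

lemma moment_pos (hc : IsCompact K) (hv : volume K ≠ 0) : 0 < moment p A c K := by
  unfold moment
  refine div_pos ?_ (vpos hc hv)
  have hcont : Continuous fun x : Fin n → ℝ => Real.exp (p * n / 2 * (normSq A c x - 1)) := by
    unfold normSq
    have h : Continuous fun x : Fin n → ℝ => A.mulVec (x - c) :=
      (Matrix.toLin' A).continuous_of_finiteDimensional.comp (continuous_id.sub continuous_const)
    have h' : ∀ i, Continuous fun x : Fin n → ℝ => A.mulVec (x - c) i := fun i =>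
      (continuous_apply i).comp h
    fun_prop
  rw [setIntegral_pos_iff_support_of_nonneg_ae
    (Filter.Eventually.of_forall fun x => (Real.exp_pos _).le)
    (hcont.continuousOn.integrableOn_compact hc)]
  have : Function.support (fun x : Fin n → ℝ => Real.exp (p * n / 2 * (normSq A c x - 1))) = univ := by
    ext x
    simp [(Real.exp_pos _).ne']
  rw [this, univ_inter]
  exact pos_iff_ne_zero.2 hv

lemma moment_le (hp : 0 < p) (hc : IsCompact K) (hv : volume K ≠ 0) (hK : K ⊆ ellipsoid A c) :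
    moment p A c K ≤ 1 := by
  unfold moment
  rw [div_le_one (vpos hc hv)]
  have hcont : Continuous fun x : Fin n → ℝ => Real.exp (p * n / 2 * (normSq A c x - 1)) := by
    unfold normSq
    have h : Continuous fun x : Fin n → ℝ => A.mulVec (x - c) :=
      (Matrix.toLin' A).continuous_of_finiteDimensional.comp (continuous_id.sub continuous_const)
    have h' : ∀ i, Continuous fun x : Fin n → ℝ => A.mulVec (x - c) i := fun i =>
      (continuous_apply i).comp h
    fun_prop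
  have h1 : ∫ x in K, Real.exp (p * n / 2 * (normSq A c x - 1)) ≤ ∫ _x in K, (1:ℝ) := by
    refine setIntegral_mono_on (hcont.continuousOn.integrableOn_compact hc)
      (continuous_const.continuousOn.integrableOn_compact hc) hc.measurableSet fun x hx => ?_
    rw [Real.exp_le_one_iff]
    have h2 : normSq A c x ≤ 1 := hK hx
    have h3 : 0 ≤ p * n / 2 := by positivity
    nlinarith
  rw [setIntegral_const, smul_eq_mul, mul_one] at h1
  exact h1

lemma loss_pos (n : ℕ) : 0 < loss n := by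
  have h : 0 < Real.Gamma (1 + (n:ℝ) / 2) := Real.Gamma_pos_of_pos (by positivity)
  unfold loss
  rcases Nat.eq_zero_or_pos n with rfl | hn
  · simp
  · have hn0 : (0:ℝ) < n := by exact_mod_cast hn
    positivity

lemma ell_pos (hn : 1 ≤ n) (hA : A.det ≠ 0) : 0 < volume.real (ellipsoid A c) := by
  have h1 : ellipsoid A c = Pool.Agent.Helper37LP.ell A c := rfl
  have hpi := Real.pi_pos
  have hG : 0 < Real.Gamma ((n : ℝ) / 2 + 1) := Real.Gamma_pos_of_pos (by positivity)
  rw [h1, Pool.Agent.Helper37LP.ell_vol hn hA]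
  have := abs_pos.2 hA
  positivity

/-- the deduction -/
lemma deduce (hn : 1 ≤ n) (hp : 0 < p) (hc : IsCompact K) (hv : volume K ≠ 0) (hA : A.det ≠ 0)
    {κ μ : ℝ} (hκ : 0 < κ) (hμ : 0 < μ) (hE : volume.real (ellipsoid A c) ≤ κ ^ n * volume.real K)
    (hM : moment p A c K ≤ μ ^ (p * n)) :
    ENNReal.ofReal (loss n * (1 / (κ * μ)) ^ n * ballRate p ^ n) ≤ mahlerVolume p K := by
  refine le_trans (ENNReal.ofReal_le_ofReal ?_) (gen (c := c) hn hp hc hv hA)
  have hn0 : (0:ℝ) < n := by exact_mod_cast hn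
  have hV := vpos hc hv
  have hEp := ell_pos (c := c) hn hA
  have hb : 0 < ballRate p := by rw [ball_eq]; exact Pool.Agent.R476.LI.brate_pos hp
  have hl := loss_pos n
  have hm := moment_pos (p := p) (A := A) (c := c) hc hv
  have h1 : (1 / κ) ^ n ≤ volume.real K / volume.real (ellipsoid A c) := by
    rw [one_div, inv_pow, inv_eq_one_div, div_le_div_iff₀ (by positivity) hEp]
    linarith
  have h2 : (1 / μ) ^ n ≤ moment p A c K ^ (-(1 / p)) := by
    have h3 : (1 / μ) ^ n = (μ ^ (p * n)) ^ (-(1 / p)) := by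
      rw [← Real.rpow_mul hμ.le, show p * n * -(1 / p) = -(n:ℝ) by field_simp,
        Real.rpow_neg hμ.le, Real.rpow_natCast, one_div, inv_pow]
    rw [h3]
    exact Real.rpow_le_rpow_of_nonpos hm hM (by rw [neg_nonpos]; positivity)
  have h4 : (1 / (κ * μ)) ^ n = (1 / κ) ^ n * (1 / μ) ^ n := by
    rw [← mul_pow, one_div_mul_one_div]
  have h5 : (1 / κ) ^ n * (1 / μ) ^ n ≤
      volume.real K / volume.real (ellipsoid A c) * moment p A c K ^ (-(1 / p)) :=
    mul_le_mul h1 h2 (by positivity) (by positivity)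
  have h6 : 0 < ballRate p ^ n := by positivity
  calc loss n * (1 / (κ * μ)) ^ n * ballRate p ^ n
      = loss n * ((1 / κ) ^ n * (1 / μ) ^ n * ballRate p ^ n) := by rw [h4]; ring
    _ ≤ loss n * (volume.real K / volume.real (ellipsoid A c) * moment p A c K ^ (-(1 / p)) *
        ballRate p ^ n) :=
        mul_le_mul_of_nonneg_left (mul_le_mul_of_nonneg_right h5 h6.le) hl.le
    _ = _ := by ring

lemma const_gt : (38 / 25 : ℝ) < √(2 * Real.pi / Real.exp 1) := by
  have h1 := Real.exp_one_lt_d9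
  have h2 := Real.pi_gt_d6
  have h3 := Real.exp_pos 1
  apply Real.lt_sqrt_of_sq_lt
  rw [lt_div_iff₀ h3]
  nlinarith

/-- **Bodies in ellipsoids and the non-symmetric `L^p`-Mahler inequality.** -/
theorem result :
    -- (1) the lower bound, for every compact set, every ellipsoid, every position and every `p`
    (∀ n : ℕ, 1 ≤ n → ∀ K : Set (Fin n → ℝ), IsCompact K → volume K ≠ 0 → ∀ p : ℝ, 0 < p →
      ∀ (A : Matrix (Fin n) (Fin n) ℝ) (c : Fin n → ℝ), A.det ≠ 0 →
        ENNReal.ofReal (loss n * (volume.real K / volume.real (ellipsoid A c)) *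
          moment p A c K ^ (-(1 / p)) * ballRate p ^ n) ≤ mahlerVolume p K ∧
        (K ⊆ ellipsoid A c → moment p A c K ≤ 1)) ∧
    (∀ n : ℕ, 1 ≤ n → Real.exp (-1) / (1 + (n:ℝ) / 2) ≤ loss n) ∧
    -- (2) the rates of balls and simplices
    (∀ p : ℝ, 0 < p → √(2 * Real.pi / Real.exp 1) * simplexRate p ≤ ballRate p) ∧
    (38 / 25 : ℝ) < √(2 * Real.pi / Real.exp 1) ∧
    -- (3) the upper bound for the simplex, uniform in `p`
    (∀ κ : ℝ, 0 < κ → κ < √(2 * Real.pi / Real.exp 1) → ∃ n₀ : ℕ, ∀ n : ℕ, n₀ ≤ n →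
      ∀ p : ℝ, 0 < p → simplexInf n p < ENNReal.ofReal (loss n * (ballRate p / κ) ^ n)) ∧
    -- (4) the inequality of Q1 for sets in ellipsoids, uniformly in `p`
    (∀ κ : ℝ, 0 < κ → κ < √(2 * Real.pi / Real.exp 1) → ∃ n₀ : ℕ, ∀ n : ℕ, n₀ ≤ n →
      ∀ p : ℝ, 0 < p → ∀ K : Set (Fin n → ℝ), IsCompact K → volume K ≠ 0 →
      ∀ (A : Matrix (Fin n) (Fin n) ℝ) (c : Fin n → ℝ), A.det ≠ 0 → K ⊆ ellipsoid A c →
        volume.real (ellipsoid A c) ≤ κ ^ n * volume.real K →
        simplexInf n p < mahlerVolume p K) ∧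
    -- (5) the same with an exponential moment in place of the containment
    (∀ κ μ : ℝ, 0 < κ → 0 < μ → κ * μ < √(2 * Real.pi / Real.exp 1) → ∃ n₀ : ℕ, ∀ n : ℕ, n₀ ≤ n →
      ∀ p : ℝ, 0 < p → ∀ K : Set (Fin n → ℝ), IsCompact K → volume K ≠ 0 →
      ∀ (A : Matrix (Fin n) (Fin n) ℝ) (c : Fin n → ℝ), A.det ≠ 0 →
        moment p A c K ≤ μ ^ (p * n) →
        volume.real (ellipsoid A c) ≤ κ ^ n * volume.real K →
        simplexInf n p < mahlerVolume p K) ∧
    -- (6) for a fixed `p`, with the quotient of the rates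
    (∀ p : ℝ, 0 < p → ∀ κ μ : ℝ, 0 < κ → 0 < μ → κ * μ < ballRate p / simplexRate p →
      ∃ n₀ : ℕ, ∀ n : ℕ, n₀ ≤ n → ∀ K : Set (Fin n → ℝ), IsCompact K → volume K ≠ 0 →
      ∀ (A : Matrix (Fin n) (Fin n) ℝ) (c : Fin n → ℝ), A.det ≠ 0 →
        moment p A c K ≤ μ ^ (p * n) →
        volume.real (ellipsoid A c) ≤ κ ^ n * volume.real K →
        simplexInf n p < mahlerVolume p K) := by
  have h5 : ∀ κ μ : ℝ, 0 < κ → 0 < μ → κ * μ < √(2 * Real.pi / Real.exp 1) → ∃ n₀ : ℕ, ∀ n : ℕ,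
      n₀ ≤ n → ∀ p : ℝ, 0 < p → ∀ K : Set (Fin n → ℝ), IsCompact K → volume K ≠ 0 →
      ∀ (A : Matrix (Fin n) (Fin n) ℝ) (c : Fin n → ℝ), A.det ≠ 0 →
        moment p A c K ≤ μ ^ (p * n) →
        volume.real (ellipsoid A c) ≤ κ ^ n * volume.real K →
        simplexInf n p < mahlerVolume p K := by
    intro κ μ hκ hμ h
    obtain ⟨n0, hn0⟩ := Pool.Agent.Helper37LP.II_unif (κ := κ * μ) (by positivity) h
    refine ⟨max n0 1, fun n hn p hp K hc hv A c hA hM hE => ?_⟩
    have h1 := hn0 n ((le_max_left _ _).trans hn) p hp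
    refine h1.trans_le ?_
    exact deduce ((le_max_right _ _).trans hn) hp hc hv hA hκ hμ hE hM
  refine ⟨fun n hn K hc hv p hp A c hA => ⟨gen hn hp hc hv hA, moment_le hp hc hv⟩, ?_, ?_,
    const_gt, ?_, ?_, h5, ?_⟩
  · intro n hn
    have hn0 : (0:ℝ) < n := by exact_mod_cast hn
    exact Pool.Agent.R476.LI.sg_ge (by positivity)
  · intro p hp
    have hpi := Real.pi_pos
    have h1 := Pool.Agent.Helper37LP.eps_le hp
    have h2 := mul_le_mul_of_nonneg_left h1 (Real.sqrt_nonneg (2 * Real.pi / Real.exp 1))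
    have h3 : √(2 * Real.pi / Real.exp 1) * √(Real.exp 1 / (2 * Real.pi)) = 1 := by
      rw [← Real.sqrt_mul (by positivity)]
      rw [show 2 * Real.pi / Real.exp 1 * (Real.exp 1 / (2 * Real.pi)) = 1 by field_simp,
        Real.sqrt_one]
    rw [← mul_assoc, h3, one_mul] at h2
    exact h2
  · intro κ hκ h
    obtain ⟨n0, hn0⟩ := Pool.Agent.Helper37LP.II_unif hκ h
    refine ⟨n0, fun n hn p hp => ?_⟩
    have h1 := hn0 n hn p hp
    refine h1.trans_le (ENNReal.ofReal_le_ofReal (le_of_eq ?_))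
    rw [← loss_eq, ← ball_eq, div_pow, div_pow, one_pow]
    ring
  · intro κ hκ h
    obtain ⟨n0, hn0⟩ := h5 κ 1 hκ one_pos (by rwa [mul_one])
    refine ⟨n0, fun n hn p hp K hc hv A c hA hK hE => ?_⟩
    exact hn0 n hn p hp K hc hv A c hA (by rw [Real.one_rpow]; exact moment_le hp hc hv hK) hE
  · intro p hp κ μ hκ hμ h
    have he := Pool.Agent.TH649.LP.eps_pos hp
    rw [lt_div_iff₀ (show 0 < simplexRate p from he)] at h
    obtain ⟨n0, hn0⟩ := Pool.Agent.Helper37LP.II_fixed (κ := κ * μ) hp (by positivity) h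
    refine ⟨max n0 1, fun n hn K hc hv A c hA hM hE => ?_⟩
    have h1 := hn0 n ((le_max_left _ _).trans hn)
    refine h1.trans_le ?_
    exact deduce ((le_max_right _ _).trans hn) hp hc hv hA hκ hμ hE hM

end Pool.Agent.Results.MP_5f4cdd_gt.OuterVolumeRatio
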