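import Pool.Agent.H39.TN.G

/-!
# The `L^p`-Mahler volume of sections and projections of small codimension (no symmetry)

`J(K) = inf_z M_p(K - z)`.  Let `K ⊂ ℝ^(a+b)` be a convex body, `S` a section parallel to `ℝ^a`
with interior points, `P` the projection to `ℝ^b`, `n = a + b`.  For every `p > 0`
`(|S||P|/|K|)^(1+1/p) J(K) ≤ (n^n / (a^a b^b))^(2+1/p) J(S) J(P)`,
`J(S) J(P) ≤ (|S||P|/|K|)^(1+1/p) M_p(K - z)` if `z` is an interior point of `K` and `S` the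
section through `z`.
Consequences: for every `δ > 0` there is `ε > 0` such that for codimension at most `ε n`:
`J(K) ≤ (1+δ)^n J(L)` if `L` is a projection of `K`, or a section of almost largest volume among
the parallel ones; `J(L) ≤ (1+δ)^n J(K)` if `L` is a projection, or for the smallest `J(L)` among
the parallel sections `L`.  Hence the inequality of Q1 passes, up to a factor `(1-δ)^m`, from `K` to
its projections and almost largest sections of small codimension, and back to `K` from one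
projection or from all parallel sections; without a factor if there is some room.

Outline of (1).  Let `F_K(y) = ∫_K exp ⟨x, y⟩ dx`, `0 < λ < 1`, `c = (1-λ)^a λ^b`, and let `S` be
the section at height `0` (after a translation).  If `(x, t) ∈ K`, the section at height `λ t`
contains `(1-λ) S + λ x`.  Integrate over `x` in the section at height `t` and over `t`; by
Jensen's inequality for the measure `1_K(x,t) dx dt / |S_t|`, whose mass is `|P|`, there is a point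
`w` with `F_K(y', y'') ≥ c |P| exp (λ ⟨w, (y', y'')⟩) F_S((1-λ) y')`; likewise
`F_K(0, y'') ≥ c |S| F_P(λ y'')`.  Write `F_K^(-1/p) = F_K^(-(1-λ)/p) F_K^(-λ/p)` and use the first
bound for the first factor.  The integral of the second factor times `exp ⟨θ, y''⟩` over `y''` is
log-concave in `y'` by the Prekopa-Leindler inequality, so it is at most `exp ⟨β, y'⟩` times its
value for `y' = 0`, for some `β`, where the second bound applies.  The exponents are restored by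
log-convexity, `F(s y) ≤ F(y)^s F(0)^(1-s)`, and all factors `exp ⟨·, y⟩` are absorbed by the choice
of the position of `K`.  The optimal `λ` is `b/(a+b)`.
-/

set_option autoImplicit false

noncomputable section

open MeasureTheory Set Filter
open scoped ENNReal Pointwise Topology

namespace Pool.Agent.Results.MP_5f4cdd_gt.SmallCodimension

/-- convex bodies in `ℝⁿ` (in any position) -/
def Body {n : ℕ} (K : Set (Fin n → ℝ)) : Prop := Convex ℝ K ∧ IsCompact K ∧ (interior K).Nonempty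

/-- The `L^p`-Mahler volume `M_p(K) = vol(K) ∫ exp(-h_{p,K}(y)) dy` for `0 < p < ∞`, where
`exp(-h_{p,K}(y)) = ((1/vol K) ∫_K exp(p⟨x,y⟩) dx)^(-1/p)`. -/
def mahlerVolume {n : ℕ} (p : ℝ) (K : Set (Fin n → ℝ)) : ℝ≥0∞ :=
  volume K * ∫⁻ y : Fin n → ℝ, ENNReal.ofReal
    (((∫ x in K, Real.exp (p * ∑ i, x i * y i)) / (volume K).toReal) ^ (-(1 / p)))

/-- the standard simplex `Δ_n` -/
def simplex (n : ℕ) : Set (Fin n → ℝ) := {z | (∀ i, 0 ≤ z i) ∧ ∑ i, z i ≤ 1}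

/-- the infimum of `M_p(Δ_n - x)` over `x ∈ Δ_n` -/
def simplexInf (n : ℕ) (p : ℝ) : ℝ≥0∞ :=
  ⨅ x ∈ simplex n, mahlerVolume p ((fun z : Fin n → ℝ => z - x) '' simplex n)

/-- the translate `K - z` -/
def shift {n : ℕ} (K : Set (Fin n → ℝ)) (z : Fin n → ℝ) : Set (Fin n → ℝ) := (fun x => x - z) '' K

/-- `J(K)`, the infimum of `M_p(K - z)` over all positions -/
def posInf {n : ℕ} (p : ℝ) (K : Set (Fin n → ℝ)) : ℝ≥0∞ :=
  ⨅ z : Fin n → ℝ, mahlerVolume p (shift K z)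

/-- the rate `r(p) = e^(1+1/p) p^(1/p) Γ(1+1/p)`; by the result `Cones` it is the limit of
`(inf_x M_p(Δ_n - x))^(1/n)` -/
def rate (p : ℝ) : ℝ := Real.exp (1 + 1 / p) * p ^ (1 / p) * Real.Gamma (1 + 1 / p)

/-- `b_p(m) = (1+1/p)^((1+1/p)/2) (p/2π)^(1/(2p)) m^(1+1/(2p))` -/
def bound (p m : ℝ) : ℝ :=
  (1 + 1 / p) ^ ((1 + 1 / p) / 2) * (p / (2 * Real.pi)) ^ (1 / (2 * p)) * m ^ (1 + 1 / (2 * p))

/-- the section of `K ⊂ ℝ^(a+b)` with `ℝ^a × {t}` -/
def sectionAt {a b : ℕ} (K : Set (Fin (a + b) → ℝ)) (t : Fin b → ℝ) : Set (Fin a → ℝ) :=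
  {x | Fin.append x t ∈ K}

/-- the projection of `K ⊂ ℝ^(a+b)` to `ℝ^b` -/
def projection {a b : ℕ} (K : Set (Fin (a + b) → ℝ)) : Set (Fin b → ℝ) :=
  {t | ∃ x : Fin a → ℝ, Fin.append x t ∈ K}

/-- the section of `K` with the affine subspace `v + T(ℝ^m)`, `T` linear and injective, in the
coordinates given by `T` -/
def slice {m n : ℕ} (T : (Fin m → ℝ) →ₗ[ℝ] (Fin n → ℝ)) (v : Fin n → ℝ) (K : Set (Fin n → ℝ)) :
    Set (Fin m → ℝ) := {x | T x + v ∈ K}

/-- `L ⊂ ℝ^m` is a projection of `K ⊂ ℝ^n`, up to a linear isomorphism, or a section of `K` with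
interior points, up to an affine isomorphism, such that no parallel section has a volume larger
than `s` times that of `L` -/
def Derived {m n : ℕ} (s : ℝ) (L : Set (Fin m → ℝ)) (K : Set (Fin n → ℝ)) : Prop :=
  (∃ T : (Fin n → ℝ) →ₗ[ℝ] (Fin m → ℝ), Function.Surjective T ∧ L = T '' K) ∨
    ∃ T : (Fin m → ℝ) →ₗ[ℝ] (Fin n → ℝ), Function.Injective T ∧ ∃ v : Fin n → ℝ,
      L = slice T v K ∧ (interior L).Nonempty ∧
        ∀ w : Fin n → ℝ, volume (slice T w K) ≤ ENNReal.ofReal s * volume L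

/-- one projection of `K` to dimension `m`, or all the sections of `K` (with interior points)
parallel to one subspace of dimension `m`, have the property `Q` -/
def Through {n : ℕ} (m : ℕ) (K : Set (Fin n → ℝ)) (Q : Set (Fin m → ℝ) → Prop) : Prop :=
  (∃ T : (Fin n → ℝ) →ₗ[ℝ] (Fin m → ℝ), Function.Surjective T ∧ Q (T '' K)) ∨
    ∃ T : (Fin m → ℝ) →ₗ[ℝ] (Fin n → ℝ), Function.Injective T ∧
      ∀ v : Fin n → ℝ, (interior (slice T v K)).Nonempty → Q (slice T v K)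

/-- `K` lies in a polytope with at most `(1+θ) n` vertices or at most `(1+θ) n` facets, of volume
at most `(1+θ)^n |K|` -/
def NearPolytope {n : ℕ} (θ : ℝ) (K : Set (Fin n → ℝ)) : Prop :=
  ∃ N : ℕ, (N:ℝ) ≤ (1 + θ) * n ∧ ∃ P : Set (Fin n → ℝ), K ⊆ P ∧
    volume P ≤ ENNReal.ofReal ((1 + θ) ^ n) * volume K ∧
      ((∃ v : Fin N → (Fin n → ℝ), P = convexHull ℝ (range v)) ∨
        (Bornology.IsBounded P ∧ ∃ (u : Fin N → (Fin n → ℝ)) (c : Fin N → ℝ),
          P = {x | ∀ k, ∑ i, x i * u k i ≤ c k}))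

/-- `K` is symmetric about some point -/
def Symmetric {n : ℕ} (K : Set (Fin n → ℝ)) : Prop := ∃ z : Fin n → ℝ, ∀ x ∈ K, (2:ℝ) • z - x ∈ K

/-- `|K - K| ≤ κ^n |K|` -/
def SmallDifference {n : ℕ} (κ : ℝ) (K : Set (Fin n → ℝ)) : Prop :=
  volume.real (K - K) ≤ κ ^ n * volume.real K

open Pool.Agent.H39.TN

lemma cb {n : ℕ} {K : Set (Fin n → ℝ)} (hK : Body K) : CB K := ⟨hK.2.1, hK.1, hK.2.2⟩

lemma pos_eq {n : ℕ} (p : ℝ) (K : Set (Fin n → ℝ)) : posInf p K = Pool.Agent.Y511.LM.mI p K := rfl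

lemma inf_eq (n : ℕ) (p : ℝ) : simplexInf n p = SI n p := rfl

lemma der {m n : ℕ} {s : ℝ} {L : Set (Fin m → ℝ)} {K : Set (Fin n → ℝ)} (h : Derived s L K) :
    Pr L K ∨ Se (ENNReal.ofReal s) L K := h

lemma sec_le {n m : ℕ} {p : ℝ} {K : Set (Fin n → ℝ)} {c : ℝ≥0∞}
    (h : Through m K fun L => c ≤ posInf p L) :
    (∃ L : Set (Fin m → ℝ), Pr L K ∧ c ≤ Pool.Agent.Y511.LM.mI p L) ∨ AllSec p m K c := by
  rcases h with ⟨T, hT, h⟩ | h
  · exact Or.inl ⟨_, ⟨T, hT, rfl⟩, h⟩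
  · exact Or.inr h

lemma derMono {m n : ℕ} {x y : ℝ} (hx : 0 ≤ x) (hxy : x ≤ y) {L : Set (Fin m → ℝ)}
    {K : Set (Fin n → ℝ)} (h : Derived ((1 + x) ^ n) L K) : Derived ((1 + y) ^ n) L K :=
  PS.mono hx hxy h

lemma thr {n m : ℕ} {K : Set (Fin n → ℝ)} (hK : Body K) {Q R : Set (Fin m → ℝ) → Prop}
    (hQ : ∀ L : Set (Fin m → ℝ), CB L → Q L → R L) (h : Through m K Q) : Through m K R := by
  rcases h with ⟨T, hT, h⟩ | ⟨T, hT, h⟩
  · exact Or.inl ⟨T, hT, hQ _ (cb_Pr ⟨T, hT, rfl⟩ (cb hK)) h⟩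
  · exact Or.inr ⟨T, hT, fun v hv => hQ _ (cb_fibre (cb hK) T hT v hv) (h v hv)⟩

lemma thrEx {n m : ℕ} {K : Set (Fin n → ℝ)} {Q : Set (Fin m → ℝ) → Prop} (h : Through m K Q) :
    (∃ L : Set (Fin m → ℝ), Pr L K ∧ Q L) ∨ AllS m K Q := by
  rcases h with ⟨T, hT, h⟩ | h
  · exact Or.inl ⟨_, ⟨T, hT, rfl⟩, h⟩
  · exact Or.inr h

/-- **The `L^p`-Mahler volume of sections and projections of small codimension.** -/
theorem result (p : ℝ) (hp : 0 < p) :
    -- (1) the upper bound, for every section with interior points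
    (∀ (a b : ℕ), 1 ≤ a → 1 ≤ b → ∀ K : Set (Fin (a + b) → ℝ), Body K → ∀ t : Fin b → ℝ,
      (interior (sectionAt K t)).Nonempty →
      (volume (sectionAt K t) * volume (projection K)) ^ (1 + 1 / p) * posInf p K ≤
        ENNReal.ofReal
          ((((a + b : ℕ) : ℝ) ^ (a + b) / ((a : ℝ) ^ a * (b : ℝ) ^ b)) ^ (2 + 1 / p)) *
        volume K ^ (1 + 1 / p) * (posInf p (sectionAt K t) * posInf p (projection K))) ∧
    -- (2) the lower bound, for every position `z = (x, t)`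
    (∀ (a b : ℕ) (K : Set (Fin (a + b) → ℝ)), Body K → ∀ (x : Fin a → ℝ) (t : Fin b → ℝ),
      Fin.append x t ∈ interior K →
      volume K ^ (1 + 1 / p) * (posInf p (sectionAt K t) * posInf p (projection K)) ≤
        (volume (sectionAt K t) * volume (projection K)) ^ (1 + 1 / p) *
          mahlerVolume p (shift K (Fin.append x t))) ∧
    -- (3) a body, its projections and sections of small codimension
    (∀ δ : ℝ, 0 < δ → ∃ ε : ℝ, 0 < ε ∧ ∀ n m : ℕ, (1 - ε) * n ≤ m →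
      ∀ K : Set (Fin n → ℝ), Body K →
        (∀ L : Set (Fin m → ℝ), Derived ((1 + ε) ^ n) L K →
          posInf p K ≤ ENNReal.ofReal ((1 + δ) ^ n) * posInf p L) ∧
        (∀ T : (Fin n → ℝ) →ₗ[ℝ] (Fin m → ℝ), Function.Surjective T →
          posInf p (T '' K) ≤ ENNReal.ofReal ((1 + δ) ^ n) * posInf p K) ∧
        (∀ T : (Fin m → ℝ) →ₗ[ℝ] (Fin n → ℝ), Function.Injective T →
          (⨅ v : Fin n → ℝ, ⨅ _ : (interior (slice T v K)).Nonempty, posInf p (slice T v K)) ≤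
            ENNReal.ofReal ((1 + δ) ^ n) * posInf p K)) ∧
    -- (4) the inequality of Q1 with a loss passes down
    (∀ δ : ℝ, 0 < δ → δ < 1 → ∃ ε : ℝ, 0 < ε ∧ ∃ n₀ : ℕ, ∀ n m : ℕ, n₀ ≤ n →
      (1 - ε) * n ≤ m → ∀ (K : Set (Fin n → ℝ)) (L : Set (Fin m → ℝ)), Body K →
        Derived ((1 + ε) ^ n) L K → ENNReal.ofReal ((1 - ε) ^ n) * simplexInf n p ≤ posInf p K →
        ENNReal.ofReal ((1 - δ) ^ m) * simplexInf m p < posInf p L) ∧
    -- (5) and up
    (∀ δ : ℝ, 0 < δ → δ < 1 → ∃ ε : ℝ, 0 < ε ∧ ∃ n₀ : ℕ, ∀ n m : ℕ, n₀ ≤ n →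
      (1 - ε) * n ≤ m → ∀ K : Set (Fin n → ℝ), Body K →
        (Through m K fun L => ENNReal.ofReal ((1 - ε) ^ m) * simplexInf m p ≤ posInf p L) →
        ENNReal.ofReal ((1 - δ) ^ n) * simplexInf n p < posInf p K) ∧
    -- (6) the strict inequality of Q1 for the sections and projections if there is some room
    (∀ c : ℝ, rate p < c → ∃ ε : ℝ, 0 < ε ∧ ∃ n₀ : ℕ, ∀ n m : ℕ, n₀ ≤ n →
      (1 - ε) * n ≤ m → ∀ (K : Set (Fin n → ℝ)) (L : Set (Fin m → ℝ)), Body K →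
        Derived ((1 + ε) ^ n) L K → ENNReal.ofReal (c ^ n) ≤ posInf p K →
        simplexInf m p < posInf p L) ∧
    -- (7) and for the body
    (∀ c : ℝ, rate p < c → ∃ ε : ℝ, 0 < ε ∧ ∃ n₀ : ℕ, ∀ n m : ℕ, n₀ ≤ n →
      (1 - ε) * n ≤ m → ∀ K : Set (Fin n → ℝ), Body K →
        (Through m K fun L => ENNReal.ofReal (c ^ m) ≤ posInf p L) →
        simplexInf n p < posInf p K) ∧
    -- (8) examples for (4) and (5)
    (∀ δ : ℝ, 0 < δ → δ < 1 → ∃ ε : ℝ, 0 < ε ∧ ∃ n₀ : ℕ, ∀ n m : ℕ, n₀ ≤ n →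
      (1 - ε) * n ≤ m → ∀ K : Set (Fin n → ℝ), Body K →
        (NearPolytope ε K → ∀ L : Set (Fin m → ℝ), Derived ((1 + ε) ^ n) L K →
          ENNReal.ofReal ((1 - δ) ^ m) * simplexInf m p < posInf p L) ∧
        (Through m K (NearPolytope ε) →
          ENNReal.ofReal ((1 - δ) ^ n) * simplexInf n p < posInf p K)) ∧
    -- (9) examples for (6) and (7)
    (∀ κ : ℝ, 0 < κ → rate p < bound p (2 + 8 / κ ^ 2) → ∃ ε : ℝ, 0 < ε ∧ ∃ n₀ : ℕ,
      ∀ n m : ℕ, n₀ ≤ n → (1 - ε) * n ≤ m → ∀ K : Set (Fin n → ℝ), Body K →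
        (SmallDifference κ K → ∀ L : Set (Fin m → ℝ), Derived ((1 + ε) ^ n) L K →
          simplexInf m p < posInf p L) ∧
        (Through m K (SmallDifference κ) → simplexInf n p < posInf p K)) ∧
    -- (10) symmetric bodies, `p ≥ 2`
    (2 ≤ p → ∃ ε : ℝ, 0 < ε ∧ ∃ n₀ : ℕ,
      ∀ n m : ℕ, n₀ ≤ n → (1 - ε) * n ≤ m → ∀ K : Set (Fin n → ℝ), Body K →
        (Symmetric K → ∀ L : Set (Fin m → ℝ), Derived ((1 + ε) ^ n) L K →
          simplexInf m p < posInf p L) ∧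
        (Through m K Symmetric → simplexInf n p < posInf p K)) := by
  have h9 : ∀ κ : ℝ, 0 < κ → rate p < bound p (2 + 8 / κ ^ 2) → ∃ ε : ℝ, 0 < ε ∧ ∃ n₀ : ℕ,
      ∀ n m : ℕ, n₀ ≤ n → (1 - ε) * n ≤ m → ∀ K : Set (Fin n → ℝ), Body K →
        (SmallDifference κ K → ∀ L : Set (Fin m → ℝ), Derived ((1 + ε) ^ n) L K →
          simplexInf m p < posInf p L) ∧
        (Through m K (SmallDifference κ) → simplexInf n p < posInf p K) := by
    intro κ hκ h
    obtain ⟨ε₁, hε₁, -, n₁, h₁⟩ := sd_down hp hκ h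
    obtain ⟨ε₂, hε₂, -, n₂, h₂⟩ := sd_up hp hκ h
    refine ⟨min ε₁ ε₂, lt_min hε₁ hε₂, max n₁ n₂, fun n m hn hnm K hK =>
      ⟨fun hd L hL => ?_, fun hd => ?_⟩⟩
    · exact h₁ n m ((le_max_left _ _).trans hn) (weaken (min_le_left _ _) hnm) K L (cb hK) hd
        (derMono (lt_min hε₁ hε₂).le (min_le_left _ _) hL)
    · exact h₂ n m ((le_max_right _ _).trans hn) (weaken (min_le_right _ _) hnm) K (cb hK)
        (thrEx hd)
  refine ⟨fun a b ha hb K hK t hi => ?_, fun a b K hK x t hx => Mp_low hp (cb hK) hx,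
    fun δ hδ => ?_, fun δ hδ hδ1 => ?_, fun δ hδ hδ1 => ?_, fun c hc => ?_, fun c hc => ?_,
    fun δ hδ hδ1 => ?_, h9, fun hp2 => ?_⟩
  · have h := cb hK
    have hS : CB (Pool.Agent.R753.SP.fib K t) := ⟨fib_compact h t, fib_conv h t, hi⟩
    have ha0 : (0:ℝ) < a := by exact_mod_cast ha
    have hb0 : (0:ℝ) < b := by exact_mod_cast hb
    set l : ℝ := b / (a + b : ℝ) with hl
    have hl0 : 0 < l := by positivity
    have hl1 : l < 1 := by rw [hl, div_lt_one (by positivity)]; linarith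
    have e1 : 1 - l = a / (a + b : ℝ) := by rw [hl]; field_simp; ring
    have h1 := mI_up hp h t hS hl0 hl1
    have hpos := Pool.Agent.H39.TS.pos_loss hl0 hl1 a b
    rw [ENNReal.ofReal_rpow_of_pos hpos] at h1
    refine h1.trans (le_of_eq ?_)
    have e2 : ((1 - l) ^ a * l ^ b) ^ (-(2 + 1 / p)) =
        (((a + b : ℕ) : ℝ) ^ (a + b) / ((a : ℝ) ^ a * (b : ℝ) ^ b)) ^ (2 + 1 / p) := by
      rw [Real.rpow_neg hpos.le, ← Real.inv_rpow hpos.le]
      congr 1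
      rw [e1, hl, div_pow, div_pow]
      push_cast
      rw [pow_add]
      field_simp
    rw [e2]
    rfl
  · obtain ⟨ε, hε, -, h⟩ := stab hp hδ
    refine ⟨ε, hε, fun n m hm K hK => ⟨fun L hL => (h n m hm K (cb hK)).1 L hL,
      fun T hT => (h n m hm K (cb hK)).2.1 _ ⟨T, hT, rfl⟩, fun T hT => ?_⟩⟩
    exact (h n m hm K (cb hK)).2.2 _ ⟨T, hT, fun v hv => iInf₂_le v hv⟩
  · obtain ⟨ε, hε, -, n₀, h⟩ := q1_down hp hδ hδ1
    exact ⟨ε, hε, n₀, fun n m hn hm K L hK hL hc => h n m hn hm K L (cb hK) hL hc⟩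
  · obtain ⟨ε, hε, -, n₀, h⟩ := q1_up hp hδ hδ1
    exact ⟨ε, hε, n₀, fun n m hn hm K hK hc => h n m hn hm K (cb hK) (sec_le hc)⟩
  · obtain ⟨ε, hε, -, n₀, h⟩ := strict_down hp hc
    exact ⟨ε, hε, n₀, fun n m hn hm K L hK hL hc => h n m hn hm K L (cb hK) hL hc⟩
  · obtain ⟨ε, hε, -, n₀, h⟩ := strict_up hp hc
    exact ⟨ε, hε, n₀, fun n m hn hm K hK hc => h n m hn hm K (cb hK) (sec_le hc)⟩
  · obtain ⟨ε₁, hε₁, -, n₁, h₁⟩ := np_down hp hδ hδ1
    obtain ⟨ε₂, hε₂, -, n₂, h₂⟩ := np_up hp hδ hδ1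
    have g0 := lt_min hε₁ hε₂
    refine ⟨min ε₁ ε₂, g0, max n₁ n₂, fun n m hn hnm K hK =>
      ⟨fun hd L hL => ?_, fun hd => ?_⟩⟩
    · exact h₁ n m ((le_max_left _ _).trans hn) (weaken (min_le_left _ _) hnm) K L (cb hK)
        (NP.mono g0.le (min_le_left _ _) hd) (derMono g0.le (min_le_left _ _) hL)
    · exact h₂ n m ((le_max_right _ _).trans hn) (weaken (min_le_right _ _) hnm) K (cb hK)
        (thrEx (thr hK (fun L _ hL => NP.mono g0.le (min_le_right _ _) hL) hd))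
  · obtain ⟨ε, hε, n₀, h⟩ := h9 2 (by norm_num) (four_lt hp2)
    refine ⟨ε, hε, n₀, fun n m hn hnm K hK => ⟨fun ⟨z, hz⟩ L hL => ?_, fun hd => ?_⟩⟩
    · exact (h n m hn hnm K hK).1 (symm_sd (cb hK) hz) L hL
    · exact (h n m hn hnm K hK).2 (thr hK (fun L hL ⟨z, hz⟩ => symm_sd hL hz) hd)

end Pool.Agent.Results.MP_5f4cdd_gt.SmallCodimension
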