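import Pool.Agent.Helper37LP.H5
import Pool.Agent.H131R5.LC11

/-!
# The volume ratio and the non-symmetric `L^p`-Mahler inequality

Let `vr(K)` be the least quotient `|K| / |E|` over all ellipsoids `E ⊆ K`.  For every convex body
`K` in every position and every `p > 0`,
`M_p(K) ≥ (ω_n vr(K))^(1+1/p) (p^(1/p) Γ(1+1/p))^n`, and on the exponential scale this is
`M_p(K) ≥ (vr(K)/vr(Δ_n))^(1+1/p) inf_x M_p(Δ_n - x)`: the deficit in the inequality of Q1 is
controlled by the deficit in Ball's volume ratio inequality `vr(K) ≤ vr(Δ_n)`.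
-/

set_option autoImplicit false

noncomputable section

open MeasureTheory Set Filter
open scoped ENNReal Topology

namespace Pool.Agent.Results.MP_5f4cdd_gt.VolumeRatio

/-- convex bodies in `ℝⁿ` (in any position) -/
def Body {n : ℕ} (K : Set (Fin n → ℝ)) : Prop := Convex ℝ K ∧ IsCompact K ∧ (interior K).Nonempty

/-- The `L^p`-Mahler volume `M_p(K) = vol(K) ∫ exp(-h_{p,K}(y)) dy` for `0 < p < ∞`, where
`exp(-h_{p,K}(y)) = ((1/vol K) ∫_K exp(p⟨x,y⟩) dx)^(-1/p)`. -/
def mahlerVolume {n : ℕ} (p : ℝ) (K : Set (Fin n → ℝ)) : ℝ≥0∞ :=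
  volume K * ∫⁻ y : Fin n → ℝ, ENNReal.ofReal
    (((∫ x in K, Real.exp (p * ∑ i, x i * y i)) / (volume K).toReal) ^ (-(1 / p)))

/-- the standard simplex `Δ_n` -/
def simplex (n : ℕ) : Set (Fin n → ℝ) := {z | (∀ i, 0 ≤ z i) ∧ ∑ i, z i ≤ 1}

/-- the infimum of `M_p(Δ_n - x)` over `x ∈ Δ_n` -/
def simplexInf (n : ℕ) (p : ℝ) : ℝ≥0∞ :=
  ⨅ x ∈ simplex n, mahlerVolume p ((fun z : Fin n → ℝ => z - x) '' simplex n)

/-- the Euclidean unit ball -/
def unitBall (n : ℕ) : Set (Fin n → ℝ) := {u | ∑ i, u i ^ 2 ≤ 1}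

/-- the ellipsoid `{c + A u : |u| ≤ 1}` -/
def ellipsoid {n : ℕ} (A : Matrix (Fin n) (Fin n) ℝ) (c : Fin n → ℝ) : Set (Fin n → ℝ) :=
  (fun u => c + A.mulVec u) '' unitBall n

/-- `vr(K)`, the least quotient `|K| / |E|` over all ellipsoids `E ⊆ K` (with any centre) -/
def volRatio {n : ℕ} (K : Set (Fin n → ℝ)) : ℝ≥0∞ :=
  ⨅ (A : Matrix (Fin n) (Fin n) ℝ) (c : Fin n → ℝ) (_ : ellipsoid A c ⊆ K),
    volume K / volume (ellipsoid A c)

lemma inf_eq (n : ℕ) (p : ℝ) : simplexInf n p = Pool.Agent.H131R5.LC.II n p := rfl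

lemma ratio_eq {n : ℕ} (K : Set (Fin n → ℝ)) : volRatio K = Pool.Agent.Helper37LP.vrat K := rfl

/-- **The volume ratio and the non-symmetric `L^p`-Mahler inequality.** -/
theorem result :
    -- (1) the explicit inequality, for every convex body in every position and every `p`
    (∀ n : ℕ, 1 ≤ n → ∀ K : Set (Fin n → ℝ), Body K → ∀ p : ℝ, 0 < p →
      (volRatio K * volume (unitBall n)) ^ (1 + 1 / p) *
        ENNReal.ofReal ((p ^ (1 / p) * Real.Gamma (1 + 1 / p)) ^ n) ≤ mahlerVolume p K) ∧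
    -- (2) the simplex
    (∀ n : ℕ, 1 ≤ n →
      ENNReal.ofReal ((n:ℝ) ^ n / n.factorial) ≤ volRatio (simplex n) * volume (unitBall n)) ∧
    -- (3) the inequality of Q1 with the volume ratios, up to `c^n` for every `c > 1`
    (∀ p₀ c : ℝ, 0 < p₀ → 1 < c → ∃ n₀ : ℕ, ∀ n : ℕ, n₀ ≤ n → ∀ p : ℝ, p₀ ≤ p →
      ∀ K : Set (Fin n → ℝ), Body K →
        (volRatio K / volRatio (simplex n)) ^ (1 + 1 / p) * simplexInf n p ≤
          ENNReal.ofReal (c ^ n) * mahlerVolume p K) ∧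
    -- (4) bodies whose volume ratio is at least `κ^n` times that of the simplex
    (∀ p₀ c κ : ℝ, 0 < p₀ → 1 < c → 0 < κ → ∃ n₀ : ℕ, ∀ n : ℕ, n₀ ≤ n → ∀ p : ℝ, p₀ ≤ p →
      ∀ K : Set (Fin n → ℝ), Body K → ENNReal.ofReal (κ ^ n) * volRatio (simplex n) ≤ volRatio K →
        simplexInf n p ≤ ENNReal.ofReal ((c * κ ^ (-(1 + 1 / p))) ^ n) * mahlerVolume p K) := by
  have hball : ∀ n : ℕ, 1 ≤ n → volume (unitBall n) =
      ENNReal.ofReal (Real.sqrt Real.pi ^ n / Real.Gamma ((n : ℝ) / 2 + 1)) :=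
    fun n hn => Pool.Agent.Helper37LP.ball_vol hn
  have hω : ∀ n : ℕ, 0 < Real.sqrt Real.pi ^ n / Real.Gamma ((n : ℝ) / 2 + 1) := by
    intro n
    have hpi := Real.pi_pos
    have hG : 0 < Real.Gamma ((n : ℝ) / 2 + 1) := Real.Gamma_pos_of_pos (by positivity)
    positivity
  have h2 : ∀ n : ℕ, 1 ≤ n →
      ENNReal.ofReal ((n:ℝ) ^ n / n.factorial) ≤ volRatio (simplex n) * volume (unitBall n) := by
    intro n hn
    have h1 := Pool.Agent.Helper37LP.vrat_simplex hn
    rw [hball n hn]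
    set ω := Real.sqrt Real.pi ^ n / Real.Gamma ((n : ℝ) / 2 + 1) with hωd
    have hω0 : 0 < ω := hω n
    calc ENNReal.ofReal ((n:ℝ) ^ n / n.factorial)
        = ENNReal.ofReal ((n:ℝ) ^ n / n.factorial / ω) * ENNReal.ofReal ω := by
          rw [← ENNReal.ofReal_mul (by positivity)]
          congr 1
          field_simp
      _ ≤ _ := by
          gcongr
          exact h1
  have h3 : ∀ p₀ c : ℝ, 0 < p₀ → 1 < c → ∃ n₀ : ℕ, ∀ n : ℕ, n₀ ≤ n → ∀ p : ℝ, p₀ ≤ p →
      ∀ K : Set (Fin n → ℝ), Body K →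
        (volRatio K / volRatio (simplex n)) ^ (1 + 1 / p) * simplexInf n p ≤
          ENNReal.ofReal (c ^ n) * mahlerVolume p K := by
    intro p₀ c hp₀ hc
    obtain ⟨n0, hn0⟩ := Pool.Agent.Helper37LP.ratio_main hp₀ hc
    exact ⟨n0, fun n hn p hp K hK => hn0 n hn p hp K hK.2.1 hK.1 hK.2.2⟩
  refine ⟨?_, h2, h3, ?_⟩
  · intro n hn K hK p hp
    rw [hball n hn]
    exact Pool.Agent.Helper37LP.main_all hn hK.2.1 hK.1 hK.2.2 hp
  · intro p₀ c κ hp₀ hc hκ
    obtain ⟨n0, hn0⟩ := h3 p₀ c hp₀ hc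
    refine ⟨max n0 1, fun n hn p hp K hK hr => ?_⟩
    have hn1 : 1 ≤ n := (le_max_right _ _).trans hn
    have h4 := hn0 n ((le_max_left _ _).trans hn) p hp K hK
    have hp0 : 0 < p := lt_of_lt_of_le hp₀ hp
    have hn00 : (0:ℝ) < n := by exact_mod_cast hn1
    have hc0 : 0 < c := by linarith
    have hq : 0 ≤ 1 + 1 / p := by positivity
    -- the volume ratio of the simplex is positive and finite
    have h5 : volRatio (simplex n) ≠ 0 := by
      intro h
      have := h2 n hn1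
      rw [h, zero_mul, nonpos_iff_eq_zero, ENNReal.ofReal_eq_zero] at this
      have h6 : 0 < (n:ℝ) ^ n / n.factorial := by positivity
      linarith
    by_cases hf : volRatio (simplex n) = ⊤
    · -- the ratio is not infinite; but then `vr(K)` is infinite too, and (1) applies
      have hK' : volRatio K = ⊤ := by
        rw [hf, ENNReal.mul_top (by simp; positivity)] at hr
        exact top_le_iff.1 hr
      have h7 := Pool.Agent.Helper37LP.main_all hn1 hK.2.1 hK.1 hK.2.2 hp0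
      rw [← ratio_eq, hK', ENNReal.top_mul (by simpa using hω n), ENNReal.top_rpow_of_pos
        (by positivity), ENNReal.top_mul] at h7
      · have h8 : mahlerVolume p K = ⊤ := top_le_iff.1 h7
        rw [h8, ENNReal.mul_top]
        · exact le_top
        · rw [Ne, ENNReal.ofReal_eq_zero, not_le]; positivity
      · rw [Ne, ENNReal.ofReal_eq_zero, not_le]
        have := Real.Gamma_pos_of_pos (by positivity : 0 < 1 + 1 / p)
        positivity
    have h6 : ENNReal.ofReal (κ ^ n) ≤ volRatio K / volRatio (simplex n) := by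
      rw [ENNReal.le_div_iff_mul_le (Or.inl h5) (Or.inl hf)]
      exact hr
    have h7 : ENNReal.ofReal ((κ ^ n) ^ (1 + 1 / p)) * simplexInf n p ≤
        ENNReal.ofReal (c ^ n) * mahlerVolume p K := by
      refine le_trans ?_ h4
      rw [← ENNReal.ofReal_rpow_of_pos (by positivity)]
      gcongr
    have h8 : (c * κ ^ (-(1 + 1 / p))) ^ n = (κ ^ n) ^ (-(1 + 1 / p)) * c ^ n := by
      rw [mul_pow, ← Real.rpow_natCast (κ ^ (-(1 + 1 / p))), ← Real.rpow_mul hκ.le,
        ← Real.rpow_natCast κ, ← Real.rpow_mul hκ.le, mul_comm (-(1 + 1 / p)) (n:ℝ), mul_comm]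
    calc simplexInf n p = ENNReal.ofReal ((κ ^ n) ^ (-(1 + 1 / p))) *
          (ENNReal.ofReal ((κ ^ n) ^ (1 + 1 / p)) * simplexInf n p) := by
          rw [← mul_assoc, ← ENNReal.ofReal_mul (by positivity), ← Real.rpow_add (by positivity),
            neg_add_cancel, Real.rpow_zero, ENNReal.ofReal_one, one_mul]
      _ ≤ ENNReal.ofReal ((κ ^ n) ^ (-(1 + 1 / p))) *
          (ENNReal.ofReal (c ^ n) * mahlerVolume p K) := by gcongr
      _ = _ := by
          rw [h8, ← mul_assoc, ← ENNReal.ofReal_mul (by positivity)]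

end Pool.Agent.Results.MP_5f4cdd_gt.VolumeRatio
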